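import Pool.Agent.H923R2.FP.Stubs
import Pool.Agent.H722.FG.Dist

set_option autoImplicit false

/-!
# Task DIST: distinctness of the alternating words in the `y_k`
-/

namespace Pool.Agent.H923R2.FP.T_DIST

open Pool.Agent.H923R2.FP

/-- generator of the head letter -/
def hg (g : F2) : Option Bool := (g.toWord.head?).map Prod.fst

lemma hg_one : hg (1 : F2) = none := by simp [hg]

lemma hd_ne {g : F2} {x : Bool} (h : hg g ≠ some x) (b : Bool) :
    Pool.Agent.H722.FG.hd g ≠ some (x, b) := by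
  intro h'
  apply h
  unfold Pool.Agent.H722.FG.hd at h'
  unfold hg
  rw [h']
  rfl

lemma hg_of_hd {g : F2} {x b : Bool} (h : Pool.Agent.H722.FG.hd g = some (x, b)) :
    hg g = some x := by
  unfold Pool.Agent.H722.FG.hd at h
  unfold hg
  rw [h]
  rfl

/-- head of a power times a word not starting with the generator -/
lemma F1 {x : Bool} {n : ℤ} (hn : n ≠ 0) {t : F2} (h : hg t ≠ some x) :
    hg ((FreeGroup.of x) ^ n * t) = some x := by
  rcases lt_or_gt_of_ne hn with h1 | h1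
  · obtain ⟨m, hm⟩ : ∃ m : ℕ, n = -(m : ℤ) := ⟨n.natAbs, by omega⟩
    subst hm
    rw [zpow_neg, zpow_natCast]
    exact hg_of_hd (Pool.Agent.H722.FG.hd_invpow_mul x m (by omega) t (hd_ne h true))
  · obtain ⟨m, hm⟩ : ∃ m : ℕ, n = (m : ℤ) := ⟨n.natAbs, by omega⟩
    subst hm
    rw [zpow_natCast]
    exact hg_of_hd (Pool.Agent.H722.FG.hd_pow_mul x m (by omega) t (hd_ne h false))

/-- uniqueness of the first syllable -/
lemma F2' {x y : Bool} {n m : ℤ} (hn : n ≠ 0) (hm : m ≠ 0) {t s : F2} (ht : hg t ≠ some x)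
    (hs : hg s ≠ some y) (e : (FreeGroup.of x) ^ n * t = (FreeGroup.of y) ^ m * s) :
    x = y ∧ n = m ∧ t = s := by
  have h1 := F1 hn ht
  rw [e, F1 hm hs] at h1
  have h2 : y = x := Option.some.inj h1
  subst h2
  have e2 : (FreeGroup.of y) ^ (n - m) * t = s := by
    have h3 : n - m = -m + n := by ring
    rw [h3, zpow_add, mul_assoc, e, ← mul_assoc, ← zpow_add]
    simp
  have h3 : n - m = 0 := by
    by_contra h4
    have := F1 h4 ht
    rw [e2] at this
    exact hs this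
  rw [h3, zpow_zero, one_mul] at e2
  exact ⟨rfl, by omega, e2⟩

/-- junction -/
lemma J {x y : Bool} {n m : ℤ} (hn : n ≠ 0) (hm : m ≠ 0) {t s : F2}
    (e : t = (FreeGroup.of x) ^ n * s) (hs : hg s ≠ some x) (hxy : x = y → m + n ≠ 0) :
    hg ((FreeGroup.of y) ^ m * t) = some y := by
  by_cases h : x = y
  · subst h
    rw [e, ← mul_assoc, ← zpow_add]
    exact F1 (hxy rfl) hs
  · apply F1 hm
    rw [e, F1 hn hs]
    intro h'
    exact h (Option.some.inj h')

/-- generator of the `k`-th syllable -/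
def gn (k : ℕ) : Bool := k % 2 == 1

/-- exponent of the `k`-th syllable -/
def ee (k : ℕ) : ℤ := ((k / 2 + 1 : ℕ) : ℤ)

lemma ee_pos (k : ℕ) : 0 < ee k := by unfold ee; omega

lemma ee_ne (k : ℕ) : ee k ≠ 0 := (ee_pos k).ne'

lemma zz_eq (k : ℕ) : zz k = (FreeGroup.of (gn k)) ^ (ee k) := by
  unfold zz gn ee
  rw [zpow_natCast]

lemma zzi_eq (k : ℕ) : (zz k)⁻¹ = (FreeGroup.of (gn k)) ^ (-(ee k)) := by
  rw [zz_eq, zpow_neg]

lemma gn_eq {j k : ℕ} (h : gn j = gn k) : j % 2 = k % 2 := by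
  unfold gn at h
  rcases Nat.mod_two_eq_zero_or_one j with h1 | h1 <;>
    rcases Nat.mod_two_eq_zero_or_one k with h2 | h2 <;> simp [h1, h2] at h ⊢

lemma idx {j k : ℕ} (h : gn j = gn k) (h' : ee j = ee k) : j = k := by
  have h1 := gn_eq h
  unfold ee at h'
  omega

lemma gn_succ (k : ℕ) : gn (k + 1) ≠ gn k := by
  intro h
  have := gn_eq h
  omega

lemma gn_succ' (k : ℕ) : gn k ≠ gn (k + 1) := (gn_succ k).symm

lemma sgn_succ {k : ℕ} : some (gn (k + 1)) ≠ some (gn k) := fun h => gn_succ k (Option.some.inj h)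

lemma sgn_succ' {k : ℕ} : some (gn k) ≠ some (gn (k + 1)) := fun h => gn_succ' k (Option.some.inj h)

/-- type I -/
def TI (q : ℕ) (t : F2) : Prop :=
  ∃ r, t = zz q * r ∧ hg r ≠ some (gn q) ∧ ∃ r', r = zz (q + 1) * r' ∧ hg r' ≠ some (gn (q + 1))

/-- type II of `q + 1` -/
def TII (q : ℕ) (t : F2) : Prop :=
  ∃ r, t = (zz q)⁻¹ * r ∧ hg r ≠ some (gn q) ∧
    ((q = 0 ∧ r = 1) ∨ ∃ q' r', q = q' + 1 ∧ r = (zz q')⁻¹ * r' ∧ hg r' ≠ some (gn q'))

/-- type -/
def TY (q : ℕ) (t : F2) : Prop := TI q t ∨ ∃ q', q = q' + 1 ∧ TII q' t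

/-- weak type: the first syllable -/
def W1 (q : ℕ) (t : F2) : Prop := ∃ r, t = zz q * r ∧ hg r ≠ some (gn q)

lemma W1_inj {p q : ℕ} {t : F2} (h : W1 p t) (h' : TY q t) : p = q := by
  obtain ⟨r, h1, h2⟩ := h
  rcases h' with ⟨s, h3, h4, -⟩ | ⟨q', rfl, s, h3, h4, -⟩
  · rw [h1, zz_eq, zz_eq] at h3
    obtain ⟨e1, e2, -⟩ := F2' (ee_ne _) (ee_ne _) h2 h4 h3
    exact idx e1 e2
  · rw [h1, zz_eq, zzi_eq] at h3
    obtain ⟨e1, e2, -⟩ := F2' (ee_ne _) (neg_ne_zero.mpr (ee_ne _)) h2 h4 h3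
    have := ee_pos p
    have := ee_pos q'
    omega

lemma T_inj {p q : ℕ} {t : F2} (h : TY p t) (h' : TY q t) : p = q := by
  rcases h with ⟨r, h1, h2, -⟩ | ⟨p', rfl, r, h1, h2, -⟩
  · exact W1_inj ⟨r, h1, h2⟩ h'
  · rcases h' with ⟨s, h3, h4, -⟩ | ⟨q', rfl, s, h3, h4, -⟩
    · exfalso
      rw [h1, zzi_eq, zz_eq] at h3
      obtain ⟨e1, e2, -⟩ := F2' (neg_ne_zero.mpr (ee_ne _)) (ee_ne _) h2 h4 h3
      have := ee_pos p'
      have := ee_pos q
      omega
    · rw [h1, zzi_eq, zzi_eq] at h3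
      obtain ⟨e1, e2, -⟩ := F2' (neg_ne_zero.mpr (ee_ne _)) (neg_ne_zero.mpr (ee_ne _)) h2 h4 h3
      rw [idx e1 (by omega)]

/-- junction with `z_p` in front, `t` of type `q ≠ p + 1` -/
lemma Jp {p q : ℕ} {t : F2} (hpq : p + 1 ≠ q) (h : TY q t) : hg (zz p * t) = some (gn p) := by
  rw [zz_eq]
  rcases h with ⟨s, h3, h4, -⟩ | ⟨q', rfl, s, h3, h4, -⟩
  · rw [zz_eq] at h3
    apply J (ee_ne _) (ee_ne _) h3 h4
    intro _
    have := ee_pos p
    have := ee_pos q
    omega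
  · rw [zzi_eq] at h3
    apply J (neg_ne_zero.mpr (ee_ne _)) (ee_ne _) h3 h4
    intro h5 h6
    have := idx h5 (by omega)
    omega

/-- junction with `z_p⁻¹` in front, `t` of type `q ≠ p` -/
lemma Jm {p q : ℕ} {t : F2} (hpq : p ≠ q) (h : TY q t) : hg ((zz p)⁻¹ * t) = some (gn p) := by
  rw [zzi_eq]
  rcases h with ⟨s, h3, h4, -⟩ | ⟨q', rfl, s, h3, h4, -⟩
  · rw [zz_eq] at h3
    apply J (ee_ne _) (neg_ne_zero.mpr (ee_ne _)) h3 h4
    intro h5 h6
    have := idx h5 (by omega)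
    omega
  · rw [zzi_eq] at h3
    apply J (neg_ne_zero.mpr (ee_ne _)) (neg_ne_zero.mpr (ee_ne _)) h3 h4
    intro _
    have := ee_pos p
    have := ee_pos q'
    omega

lemma yy_succ (k : ℕ) : yy (k + 1) = yy k * zz k := rfl

lemma yy_up (j : ℕ) (g : F2) : (yy j)⁻¹ * g = zz j * ((yy (j + 1))⁻¹ * g) := by
  rw [yy_succ]; group

lemma yy_dn (j : ℕ) (g : F2) : (yy (j + 1))⁻¹ * g = (zz j)⁻¹ * ((yy j)⁻¹ * g) := by
  rw [yy_succ]; group

/-- `y_j⁻¹ y_p t` for `j < p` starts with the generator of `z_j` -/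
lemma up {p q : ℕ} {t : F2} (hpq : p ≠ q) (h : TY q t) (k : ℕ) :
    ∀ j, j + 1 + k = p → hg ((yy j)⁻¹ * (yy p * t)) = some (gn j) := by
  induction k with
  | zero =>
    intro j hj
    subst hj
    have e : (yy j)⁻¹ * (yy (j + 1 + 0) * t) = zz j * t := by
      rw [Nat.add_zero, yy_succ]; group
    rw [e]
    exact Jp hpq h
  | succ k ih =>
    intro j hj
    have h1 := ih (j + 1) (by omega)
    rw [yy_up, zz_eq]
    apply F1 (ee_ne _)
    rw [h1]
    exact sgn_succ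

/-- `y_{j+1}⁻¹ y_p t` for `j ≥ p` starts with the generator of `z_j` -/
lemma dn {p q : ℕ} {t : F2} (hpq : p ≠ q) (h : TY q t) (k : ℕ) :
    hg ((yy (p + k + 1))⁻¹ * (yy p * t)) = some (gn (p + k)) := by
  induction k with
  | zero =>
    have e : (yy (p + 0 + 1))⁻¹ * (yy p * t) = (zz p)⁻¹ * t := by
      rw [Nat.add_zero, yy_succ]; group
    rw [e]
    exact Jm hpq h
  | succ k ih =>
    rw [yy_dn, zzi_eq]
    apply F1 (neg_ne_zero.mpr (ee_ne _))
    rw [← Nat.add_assoc, ih]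
    exact sgn_succ'

lemma base_hg (k : ℕ) : hg (yy (k + 1))⁻¹ = some (gn k) := by
  induction k with
  | zero =>
    have e : (yy (0 + 1))⁻¹ = (zz 0)⁻¹ * 1 := by rw [yy_succ]; simp [yy]
    rw [e, zzi_eq]
    exact F1 (neg_ne_zero.mpr (ee_ne _)) (by rw [hg_one]; simp)
  | succ k ih =>
    have e : (yy (k + 1 + 1))⁻¹ = (zz (k + 1))⁻¹ * (yy (k + 1))⁻¹ := by
      rw [yy_succ (k + 1)]; group
    rw [e, zzi_eq]
    apply F1 (neg_ne_zero.mpr (ee_ne _))
    rw [ih]
    exact sgn_succ'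

lemma T_base (q : ℕ) : TII q (yy (q + 1))⁻¹ := by
  rcases Nat.eq_zero_or_pos q with h | h
  · subst h
    refine ⟨1, ?_, by rw [hg_one]; simp, Or.inl ⟨rfl, rfl⟩⟩
    rw [yy_succ]; simp [yy]
  · obtain ⟨q', rfl⟩ : ∃ q', q = q' + 1 := ⟨q - 1, by omega⟩
    refine ⟨(yy (q' + 1))⁻¹, by rw [yy_succ (q' + 1)]; group, ?_, Or.inr ⟨q', (yy q')⁻¹, rfl,
      by rw [yy_succ]; group, ?_⟩⟩
    · rw [base_hg]; exact sgn_succ'
    · rcases Nat.eq_zero_or_pos q' with h2 | h2
      · subst h2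
        simp [yy, hg_one]
      · obtain ⟨q'', rfl⟩ : ∃ q'', q' = q'' + 1 := ⟨q' - 1, by omega⟩
        rw [base_hg]; exact sgn_succ'

/-- step of the type -/
lemma T_step {p q r : ℕ} {t : F2} (hpq : p ≠ q) (h : TY q t)
    (hpr : p + 3 ≤ r ∨ r + 3 ≤ p) : TY r ((yy r)⁻¹ * (yy p * t)) := by
  rcases hpr with hpr | hpr
  · right
    obtain ⟨k, rfl⟩ : ∃ k, r = p + k + 1 + 1 + 1 := ⟨r - p - 3, by omega⟩
    refine ⟨p + k + 1 + 1, rfl, (yy (p + k + 1 + 1))⁻¹ * (yy p * t), yy_dn _ _, ?_, Or.inr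
      ⟨p + k + 1, (yy (p + k + 1))⁻¹ * (yy p * t), rfl, yy_dn _ _, ?_⟩⟩
    · have h1 := dn hpq h (k + 1)
      rw [← Nat.add_assoc] at h1
      rw [h1]
      exact sgn_succ'
    · rw [dn hpq h k]
      exact sgn_succ'
  · left
    refine ⟨(yy (r + 1))⁻¹ * (yy p * t), yy_up _ _, ?_, (yy (r + 1 + 1))⁻¹ * (yy p * t),
      yy_up _ _, ?_⟩
    · rw [up hpq h (p - (r + 1) - 1) (r + 1) (by omega)]
      exact sgn_succ
    · rw [up hpq h (p - (r + 1 + 1) - 1) (r + 1 + 1) (by omega)]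
      exact sgn_succ

/-- comparison of two outcomes -/
lemma T_lt {p q r s : ℕ} {t t' : F2} (hpq : p ≠ q) (hrs : r ≠ s)
    (h : TY q t) (h' : TY s t') (e : yy p * t = yy r * t') : ¬ p < r := by
  intro hlt
  have et : t = zz p * ((yy (p + 1))⁻¹ * (yy r * t')) := by
    rw [← yy_up, ← e]; group
  by_cases hr : p + 1 < r
  · apply hpq
    refine W1_inj ⟨_, et, ?_⟩ h
    rw [up hrs h' (r - (p + 1) - 1) (p + 1) (by omega)]
    exact sgn_succ
  · have hr' : r = p + 1 := by omega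
    subst hr'
    have et' : t = zz p * t' := by rw [et]; group
    -- first syllable of `t'`
    obtain ⟨x, n, r, hn, h1, h2, h3⟩ : ∃ (x : Bool) (n : ℤ) (r : F2), n ≠ 0 ∧
        t' = (FreeGroup.of x) ^ n * r ∧ hg r ≠ some x ∧
        ((x = gn s ∧ n = ee s ∧ ∃ r', r = zz (s + 1) * r' ∧ hg r' ≠ some (gn (s + 1))) ∨
          (∃ s', s = s' + 1 ∧ x = gn s' ∧ n = -ee s' ∧ ((s' = 0 ∧ r = 1) ∨
            ∃ q' r', s' = q' + 1 ∧ r = (zz q')⁻¹ * r' ∧ hg r' ≠ some (gn q')))) := by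
      rcases h' with ⟨r, h1, h2, r', h3, h4⟩ | ⟨s', hs', r, h1, h2, h3⟩
      · exact ⟨gn s, ee s, r, ee_ne _, by rw [h1, zz_eq], h2, Or.inl ⟨rfl, rfl, r', h3, h4⟩⟩
      · exact ⟨gn s', -ee s', r, neg_ne_zero.mpr (ee_ne _), by rw [h1, zzi_eq], h2,
          Or.inr ⟨s', hs', rfl, rfl, h3⟩⟩
    by_cases hx : x = gn p
    · -- merge
      subst hx
      have et2 : t = (FreeGroup.of (gn p)) ^ (ee p + n) * r := by
        rw [et', h1, zz_eq, ← mul_assoc, ← zpow_add]
      have hne : ee p + n ≠ 0 := by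
        rcases h3 with ⟨h4, h5, -⟩ | ⟨s', h4, h5, h6, -⟩
        · have := ee_pos p
          have := ee_pos s
          omega
        · intro h7
          have := idx h5 (by omega)
          omega
      -- compare with the type of `t`
      have hpp := ee_pos p
      rcases h with ⟨r2, g1, g2, r3, g3, g4⟩ | ⟨q', hq', r2, g1, g2, g3⟩
      · rw [zz_eq, et2] at g1
        obtain ⟨e1, e2, e3⟩ := F2' hne (ee_ne _) h2 g2 g1
        rcases h3 with ⟨h4, h5, r', h6, h7⟩ | ⟨s', h4, h5, h6, h7⟩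
        · rw [← e3, h6, zz_eq, zz_eq] at g3
          obtain ⟨e4, e5, -⟩ := F2' (ee_ne _) (ee_ne _) h7 g4 g3
          have := idx e4 e5
          have : s = q := by omega
          subst this
          omega
        · rcases h7 with ⟨h7, h8⟩ | ⟨q', r', h7, h8, h9⟩
          · rw [← e3, h8, zz_eq] at g3
            have := F1 (ee_ne (q + 1)) g4
            rw [← g3, hg_one] at this
            simp at this
          · rw [← e3, h8, zzi_eq, zz_eq] at g3
            obtain ⟨e4, e5, -⟩ := F2' (neg_ne_zero.mpr (ee_ne _)) (ee_ne _) h9 g4 g3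
            have := ee_pos q'
            have := ee_pos (q + 1)
            omega
      · rw [zzi_eq, et2] at g1
        obtain ⟨e1, e2, e3⟩ := F2' hne (neg_ne_zero.mpr (ee_ne _)) h2 g2 g1
        rcases h3 with ⟨h4, h5, r', h6, h7⟩ | ⟨s', h4, h5, h6, h7⟩
        · have := ee_pos s
          have := ee_pos q'
          omega
        · rcases h7 with ⟨h7, h8⟩ | ⟨q2, r', h7, h8, h9⟩
          · rcases g3 with ⟨g3, g4⟩ | ⟨q3, r3, g3, g4, g5⟩
            · subst g3 h7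
              omega
            · rw [← e3, h8, zzi_eq] at g4
              have := F1 (neg_ne_zero.mpr (ee_ne q3)) g5
              rw [← g4, hg_one] at this
              simp at this
          · rcases g3 with ⟨g3, g4⟩ | ⟨q3, r3, g3, g4, g5⟩
            · rw [← e3, h8, zzi_eq] at g4
              have := F1 (neg_ne_zero.mpr (ee_ne q2)) h9
              rw [g4, hg_one] at this
              simp at this
            · rw [← e3, h8, zzi_eq, zzi_eq] at g4
              obtain ⟨e4, e5, -⟩ := F2' (neg_ne_zero.mpr (ee_ne _)) (neg_ne_zero.mpr (ee_ne _))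
                h9 g5 g4
              have := idx e4 (by omega)
              subst this
              subst h7 g3
              omega
    · -- no merge
      apply hpq
      refine W1_inj ⟨_, et', ?_⟩ h
      rw [h1, F1 hn h2]
      intro h4
      exact hx (Option.some.inj h4)

lemma T_eq {p q r s : ℕ} {t t' : F2} (hpq : p ≠ q) (hrs : r ≠ s)
    (h : TY q t) (h' : TY s t') (e : yy p * t = yy r * t') : p = r ∧ q = s ∧ t = t' := by
  have h1 := T_lt hpq hrs h h' e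
  have h2 := T_lt hrs hpq h' h e.symm
  have h3 : p = r := by omega
  subst h3
  have h4 : t = t' := mul_left_cancel e
  subst h4
  exact ⟨rfl, T_inj h h', rfl⟩

lemma T_base' {q : ℕ} (hq : 1 ≤ q) : TY q (yy q)⁻¹ := by
  obtain ⟨q', rfl⟩ : ∃ q', q = q' + 1 := ⟨q - 1, by omega⟩
  exact Or.inr ⟨q', rfl, T_base q'⟩

lemma type_of (w : List (ℕ × ℕ)) : Vd w → ∀ q, 1 ≤ q → adm q w →
    TY q ((yy q)⁻¹ * val w) := by
  induction w with
  | nil =>
    intro _ q hq _
    simpa [val] using T_base' hq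
  | cons m w ih =>
    obtain ⟨p, r⟩ := m
    intro hv q hq hadm
    obtain ⟨h1, h2, h3, h4, h5⟩ := hv
    have h6 := ih h5 r h2 h4
    exact T_step h3 h6 hadm

lemma val_inj (w : List (ℕ × ℕ)) : Vd w → ∀ w' : List (ℕ × ℕ), Vd w' →
    val w = val w' → w = w' := by
  induction w with
  | nil =>
    intro _ w' hw' h
    cases w' with
    | nil => rfl
    | cons m w' =>
      exfalso
      obtain ⟨p, q⟩ := m
      obtain ⟨h1, h2, h3, h4, h5⟩ := hw'
      simp only [val] at h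
      have h6 := type_of w' h5 q h2 h4
      have h7 : (yy q)⁻¹ * val w' = (yy p)⁻¹ := by
        exact eq_inv_of_mul_eq_one_right h.symm
      rw [h7] at h6
      exact h3 (T_inj (T_base' h1) h6)
  | cons m w ih =>
    obtain ⟨p, q⟩ := m
    intro hw w' hw' h
    obtain ⟨h1, h2, h3, h4, h5⟩ := hw
    cases w' with
    | nil =>
      exfalso
      simp only [val] at h
      have h6 := type_of w h5 q h2 h4
      have h7 : (yy q)⁻¹ * val w = (yy p)⁻¹ := by
        exact eq_inv_of_mul_eq_one_right h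
      rw [h7] at h6
      exact h3 (T_inj (T_base' h1) h6)
    | cons m' w' =>
      obtain ⟨p', q'⟩ := m'
      obtain ⟨g1, g2, g3, g4, g5⟩ := hw'
      simp only [val] at h
      obtain ⟨e1, e2, e3⟩ := T_eq h3 g3 (type_of w h5 q h2 h4) (type_of w' g5 q' g2 g4) h
      subst e1 e2
      have e4 : val w = val w' := mul_left_cancel e3
      rw [ih h5 w' g5 e4]

theorem t_DIST : S_DIST := by
  refine ⟨fun w w' hw hw' h => val_inj w hw w' hw' h, ?_⟩
  intro w w' q q' hw hw' hq hq' h1 h2 e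
  have t1 := type_of w hw q hq h1
  have t2 := type_of w' hw' q' hq' h2
  rw [← e] at t2
  have h3 := T_inj t1 t2
  subst h3
  exact ⟨rfl, val_inj w hw w' hw' (mul_left_cancel e)⟩

end Pool.Agent.H923R2.FP.T_DIST
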